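import Pool.Agent.T9h45.PT.Part

set_option autoImplicit false
set_option linter.unusedSectionVars false

/-! # An example: `r` lines -/

namespace Pool.Agent.T9h45.PT

open Finset

section

variable (r : ℕ) (F : Type) [Field F] [Fintype F] [DecidableEq F]

/-- a vertex of the part `k` is a line together with `r - 1` values -/
abbrev LV : Type := Σ k : Fin r, (F × F) × ({l : Fin r // l ≠ k} → F)

theorem card_LV : Fintype.card (LV r F) = r * Fintype.card F ^ (r + 1) := by
  rw [Fintype.card_sigma]
  have : ∀ k : Fin r, Fintype.card ((F × F) × ({l : Fin r // l ≠ k} → F)) =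
      Fintype.card F ^ (r + 1) := by
    intro k
    have h1 : Fintype.card {l : Fin r // l ≠ k} = r - 1 := by
      rw [Fintype.card_subtype_compl (fun l => l = k), Fintype.card_fin, Fintype.card_subtype_eq]
    have hr : 1 ≤ r := by have := k.2; omega
    rw [Fintype.card_prod, Fintype.card_prod, Fintype.card_fun, h1, ← pow_two, ← pow_add]
    congr 1
    omega
  rw [sum_congr rfl fun k _ => this k, sum_const, card_univ, Fintype.card_fin, smul_eq_mul]

variable {r F}

/-- the value of the line `p` at `s` -/
def ev (p : F × F) (s : F) : F := p.1 + p.2 * s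

theorem ev_inj {p p' : F × F} {s s' : F} (hs : s ≠ s') (h1 : ev p s = ev p' s)
    (h2 : ev p s' = ev p' s') : p = p' := by
  unfold ev at h1 h2
  have h3 : (p.2 - p'.2) * (s - s') = 0 := by linear_combination h1 - h2
  have h4 : p.2 = p'.2 := by
    rcases mul_eq_zero.mp h3 with h | h
    · exact sub_eq_zero.mp h
    · exact absurd (sub_eq_zero.mp h) hs
  refine Prod.ext ?_ h4
  rw [h4] at h1
  exact add_right_cancel h1

/-- the value which is stored in `v` for the line `l` -/
def get (v : LV r F) (l : Fin r) : F := if h : l ≠ v.1 then v.2.2 ⟨l, h⟩ else 0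

/-- the vertices of the edge given by the lines `g` -/
def vtx (t : Fin r → F) (g : Fin r → F × F) (k : Fin r) : LV r F :=
  ⟨k, g k, fun l => ev (g l) (t k)⟩

theorem get_vtx (t : Fin r → F) (g : Fin r → F × F) {k l : Fin r} (h : l ≠ k) :
    get (vtx t g k) l = ev (g l) (t k) := by
  unfold get vtx
  exact dif_pos h

theorem eq_vtx {t : Fin r → F} {g : Fin r → F × F} {k : Fin r} {v : LV r F} (h1 : v.1 = k)
    (h2 : v.2.1 = g k) (h3 : ∀ l, l ≠ k → get v l = ev (g l) (t k)) : v = vtx t g k := by
  obtain ⟨k', p, h⟩ := v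
  simp only at h1 h2
  subst h1
  subst h2
  unfold vtx
  congr 2
  funext l
  have := h3 l.1 l.2
  unfold get at this
  rw [dif_pos l.2] at this
  exact this

/-- an edge -/
def edge (t : Fin r → F) (g : Fin r → F × F) : Finset (LV r F) := univ.image (vtx t g)

theorem vtx_inj (t : Fin r → F) (g : Fin r → F × F) : Function.Injective (vtx t g) :=
  fun _ _ h => congrArg Sigma.fst h

theorem mem_edge {t : Fin r → F} {g : Fin r → F × F} {v : LV r F} (h : v ∈ edge t g) :
    v = vtx t g v.1 := by
  obtain ⟨k, -, rfl⟩ := mem_image.mp h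
  rfl

theorem edge_common {t : Fin r → F} (ht : Function.Injective t) {g g' : Fin r → F × F}
    {v w : LV r F} (hvw : v ≠ w) (h1 : v ∈ edge t g) (h2 : w ∈ edge t g) (h3 : v ∈ edge t g')
    (h4 : w ∈ edge t g') : g = g' := by
  have e1 := mem_edge h1
  have e2 := mem_edge h2
  have e3 := mem_edge h3
  have e4 := mem_edge h4
  have hne : v.1 ≠ w.1 := by
    intro h
    apply hvw
    rw [e1, e2, h]
  have hv : vtx t g v.1 = vtx t g' v.1 := e1.symm.trans e3
  have hw : vtx t g w.1 = vtx t g' w.1 := e2.symm.trans e4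
  have key : ∀ k, vtx t g k = vtx t g' k → g k = g' k ∧
      ∀ l, l ≠ k → ev (g l) (t k) = ev (g' l) (t k) := by
    intro k h
    constructor
    · have h' := (Sigma.mk.inj h).2
      exact congrArg Prod.fst (eq_of_heq h')
    · intro l hl
      rw [← get_vtx t g hl, ← get_vtx t g' hl, h]
  funext l
  by_cases hl1 : l = v.1
  · rw [hl1]; exact (key _ hv).1
  · by_cases hl2 : l = w.1
    · rw [hl2]; exact (key _ hw).1
    · exact ev_inj (fun h => hne (ht h)) ((key _ hv).2 l hl1) ((key _ hw).2 l hl2)

open Classical in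
/-- the hypergraph -/
noncomputable def LH (t : Fin r → F) : Finset (Finset (LV r F)) := univ.image (edge t)

theorem mem_LH {t : Fin r → F} {s : Finset (LV r F)} : s ∈ LH t ↔ ∃ g, edge t g = s := by
  classical
  unfold LH
  rw [mem_image]
  simp

theorem card_edge (t : Fin r → F) (g : Fin r → F × F) : (edge t g).card = r := by
  rw [edge, card_image_of_injective _ (vtx_inj t g), card_univ, Fintype.card_fin]

theorem card_LH {t : Fin r → F} (ht : Function.Injective t) (hr : 2 ≤ r) :
    (LH t).card = Fintype.card F ^ (2 * r) := by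
  classical
  unfold LH
  rw [card_image_of_injective, card_univ, Fintype.card_fun, Fintype.card_prod, Fintype.card_fin,
    ← pow_two, ← pow_mul]
  intro g g' h
  have h0 : ∀ k, vtx t g k ∈ edge t g := fun k => mem_image_of_mem _ (mem_univ _)
  refine edge_common ht (v := vtx t g ⟨0, by omega⟩) (w := vtx t g ⟨1, by omega⟩) ?_ (h0 _) (h0 _)
    (by rw [← h]; exact h0 _) (by rw [← h]; exact h0 _)
  intro h2
  have := vtx_inj t g h2
  simp at this

theorem LH_linear {t : Fin r → F} (ht : Function.Injective t) {s s' : Finset (LV r F)}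
    (hs : s ∈ LH t) (hs' : s' ∈ LH t) (hne : s ≠ s') : (s ∩ s').card ≤ 1 := by
  obtain ⟨g, rfl⟩ := mem_LH.mp hs
  obtain ⟨g', rfl⟩ := mem_LH.mp hs'
  rw [card_le_one]
  intro v hv w hw
  by_contra hvw
  apply hne
  rw [mem_inter] at hv hw
  rw [edge_common ht hvw hv.1 hw.1 hv.2 hw.2]

/-- the tuples -/
def LS (t : Fin r → F) : Set (Fin r → LV r F) := {x | ∃ g, x = vtx t g}

theorem LS_decides (t : Fin r → F) : Decides (LS t) (LH t) := by
  constructor
  · rintro x ⟨g, rfl⟩ _
    exact mem_LH.mpr ⟨g, rfl⟩
  · intro s hs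
    obtain ⟨g, rfl⟩ := mem_LH.mp hs
    exact ⟨vtx t g, ⟨g, rfl⟩, vtx_inj t g, rfl⟩

theorem LS_piece (t : Fin r → F) (hr : 2 ≤ r) : IsPiece r (LV r F) (LS t) := by
  refine ⟨(F × F) ⊕ Fin r, fun i j v => if v.1 = i then Sum.inl (if i < j then
    (ev v.2.1 (t j), get v j) else (get v j, ev v.2.1 (t j))) else Sum.inr i, ?_⟩
  intro x
  constructor
  · rintro ⟨g, rfl⟩ i j hij
    show (if i = i then _ else _) = (if j = j then _ else _)
    rw [if_pos rfl, if_pos rfl, if_pos hij, if_neg (not_lt.mpr hij.le), get_vtx t g hij.ne',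
      get_vtx t g hij.ne]
    rfl
  · intro h
    -- the part of `x i` is `i`
    have h1 : ∀ i, (x i).1 = i := by
      intro i
      by_contra hcon
      obtain ⟨j, hj⟩ : ∃ j : Fin r, j ≠ i := by
        by_cases h0 : i = ⟨0, by omega⟩
        · exact ⟨⟨1, by omega⟩, by rw [h0]; simp⟩
        · exact ⟨⟨0, by omega⟩, fun h => h0 h.symm⟩
      rcases lt_or_gt_of_ne hj with h2 | h2
      · have h3 := h j i h2
        simp only [if_neg hcon] at h3
        by_cases h4 : (x j).1 = j
        · simp only [if_pos h4] at h3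
          exact absurd h3 (by simp)
        · simp only [if_neg h4] at h3
          exact hj (Sum.inr.inj h3)
      · have h3 := h i j h2
        simp only [if_neg hcon] at h3
        by_cases h4 : (x j).1 = j
        · simp only [if_pos h4] at h3
          exact absurd h3 (by simp)
        · simp only [if_neg h4] at h3
          exact hj (Sum.inr.inj h3).symm
    have h2 : ∀ i j, i < j → ev (x i).2.1 (t j) = get (x j) i ∧ get (x i) j = ev (x j).2.1 (t i) := by
      intro i j hij
      have h3 := h i j hij
      simp only [h1, if_true, if_pos hij, if_neg (not_lt.mpr hij.le)] at h3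
      exact Prod.mk.inj (Sum.inl.inj h3)
    refine ⟨fun k => (x k).2.1, funext fun k => ?_⟩
    refine eq_vtx (h1 k) rfl fun l hl => ?_
    rcases lt_or_gt_of_ne hl with h3 | h3
    · exact ((h2 l k h3).1).symm
    · exact (h2 k l h3).2

end

end Pool.Agent.T9h45.PT
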