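import Pool.Agent.T9h45.PT.Part

set_option autoImplicit false
set_option linter.unusedSectionVars false

/-! # Comparisons of real numbers and decision trees -/

namespace Pool.Agent.T9h45.PT

open Finset

variable {V : Type} {r : ℕ}

theorem piece_univ (r : ℕ) (V : Type) : IsPiece r V Set.univ :=
  ⟨Unit, fun _ _ _ => (), fun _ => ⟨fun _ _ _ _ => rfl, fun _ => Set.mem_univ _⟩⟩

theorem piece_inter {P : Set (Fin r → V)} (hP : IsPiece r V P) {i j : Fin r} (hij : i ≠ j)
    {T' : Type} (α β : V → T') : IsPiece r V {x | x ∈ P ∧ α (x i) = β (x j)} := by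
  obtain ⟨T, φ, hφ⟩ := hP
  refine ⟨T × Option T', fun a b v => (φ a b v, if a = i ∧ b = j then some (α v) else
    if a = j ∧ b = i then some (β v) else none), ?_⟩
  intro x
  constructor
  · rintro ⟨h1, h2⟩ a b hab
    refine Prod.ext ((hφ x).mp h1 a b hab) ?_
    show (if a = i ∧ b = j then some (α (x a)) else if a = j ∧ b = i then some (β (x a)) else none) =
      (if b = i ∧ a = j then some (α (x b)) else if b = j ∧ a = i then some (β (x b)) else none)
    by_cases h3 : a = i ∧ b = j
    · have h4 : ¬ (b = i ∧ a = j) := fun h => hij (h3.1.symm.trans h.2)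
      rw [if_pos h3, if_neg h4, if_pos ⟨h3.2, h3.1⟩, h3.1, h3.2, h2]
    · by_cases h4 : a = j ∧ b = i
      · rw [if_neg h3, if_pos h4, if_pos ⟨h4.2, h4.1⟩, h4.1, h4.2, h2]
      · rw [if_neg h3, if_neg h4, if_neg (fun h => h4 ⟨h.2, h.1⟩), if_neg (fun h => h3 ⟨h.2, h.1⟩)]
  · intro h
    refine ⟨(hφ x).mpr fun a b hab => congrArg Prod.fst (h a b hab), ?_⟩
    have h4 : ¬ (j = i ∧ i = j) := fun h => hij h.2
    have e1 : (if i = i ∧ j = j then some (α (x i)) else if i = j ∧ j = i then some (β (x i))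
        else none) = some (α (x i)) := if_pos ⟨rfl, rfl⟩
    have e2 : (if j = i ∧ i = j then some (α (x j)) else if j = j ∧ i = i then some (β (x j))
        else none) = some (β (x j)) := by rw [if_neg h4, if_pos ⟨rfl, rfl⟩]
    rcases lt_or_gt_of_ne hij with h1 | h1
    · have h2 := congrArg Prod.snd (h i j h1)
      change (if i = i ∧ j = j then some (α (x i)) else if i = j ∧ j = i then some (β (x i))
        else none) = (if j = i ∧ i = j then some (α (x j)) else if j = j ∧ i = i then
        some (β (x j)) else none) at h2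
      rw [e1, e2] at h2
      exact Option.some.inj h2
    · have h2 := congrArg Prod.snd (h j i h1)
      change (if j = i ∧ i = j then some (α (x j)) else if j = j ∧ i = i then some (β (x j))
        else none) = (if i = i ∧ j = j then some (α (x i)) else if i = j ∧ j = i then
        some (β (x i)) else none) at h2
      rw [e1, e2] at h2
      exact (Option.some.inj h2).symm

/-- The relation is a union of `t` relations of the form `α a = β b`. -/
def Cov (t : ℕ) (R : V → V → Prop) : Prop :=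
  ∃ α β : Fin t → V → Option ℕ, ∀ a b, R a b ↔ ∃ l, α l a = β l b

theorem up_inter {L t : ℕ} {S : Set (Fin r → V)} (hS : UP r V L S) {i j : Fin r} (hij : i ≠ j)
    {R : V → V → Prop} (hR : Cov t R) : UP r V (L * t) {x | x ∈ S ∧ R (x i) (x j)} := by
  obtain ⟨ι, _, P, hL, hP, hSP⟩ := hS
  obtain ⟨α, β, hαβ⟩ := hR
  refine ⟨ι × Fin t, inferInstance, fun q => {x | x ∈ P q.1 ∧ α q.2 (x i) = β q.2 (x j)}, ?_,
    fun q => piece_inter (hP q.1) hij _ _, ?_⟩
  · rw [Fintype.card_prod, Fintype.card_fin]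
    exact Nat.mul_le_mul_right _ hL
  · intro x
    constructor
    · rintro ⟨h1, h2⟩
      obtain ⟨l, hl⟩ := (hSP x).mp h1
      obtain ⟨c, hc⟩ := (hαβ _ _).mp h2
      exact ⟨(l, c), hl, hc⟩
    · rintro ⟨⟨l, c⟩, hl, hc⟩
      exact ⟨(hSP x).mpr ⟨l, hl⟩, (hαβ _ _).mpr ⟨c, hc⟩⟩

theorem up_union {L M : ℕ} {S S' : Set (Fin r → V)} (hS : UP r V L S) (hS' : UP r V M S') :
    UP r V (L + M) (S ∪ S') := by
  obtain ⟨ι, _, P, hL, hP, hSP⟩ := hS
  obtain ⟨κ, _, Q, hM, hQ, hSQ⟩ := hS'
  refine ⟨ι ⊕ κ, inferInstance, Sum.elim P Q, ?_, ?_, ?_⟩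
  · rw [Fintype.card_sum]; omega
  · rintro (l | l)
    · exact hP l
    · exact hQ l
  · intro x
    rw [Set.mem_union, hSP, hSQ]
    constructor
    · rintro (⟨l, hl⟩ | ⟨l, hl⟩)
      · exact ⟨Sum.inl l, hl⟩
      · exact ⟨Sum.inr l, hl⟩
    · rintro ⟨l | l, hl⟩
      · exact Or.inl ⟨l, hl⟩
      · exact Or.inr ⟨l, hl⟩

theorem up_mono {L M : ℕ} {S : Set (Fin r → V)} (hS : UP r V L S) (h : L ≤ M) : UP r V M S := by
  obtain ⟨ι, i1, P, hL, hP⟩ := hS
  exact ⟨ι, i1, P, hL.trans h, hP⟩

/-- the order of natural numbers in terms of binary digits -/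
theorem lvl (t : ℕ) : ∀ u w : ℕ, w < 2 ^ t →
    (u < w ↔ ∃ l : Fin t, u / 2 ^ (l : ℕ) % 2 = 0 ∧ w / 2 ^ (l : ℕ) = u / 2 ^ (l : ℕ) + 1) := by
  induction' t with t ih
  · intro u w hw
    constructor
    · intro h; simp at hw; omega
    · rintro ⟨l, -⟩; exact l.elim0
  · intro u w hw
    constructor
    · intro h
      by_cases h1 : u / 2 < w / 2
      · obtain ⟨l, h2, h3⟩ := (ih (u / 2) (w / 2) (by
          rw [pow_succ] at hw; omega)).mp h1
        refine ⟨l.succ, ?_, ?_⟩
        · rw [Fin.val_succ, pow_succ', ← Nat.div_div_eq_div_mul]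
          exact h2
        · rw [Fin.val_succ, pow_succ', ← Nat.div_div_eq_div_mul, ← Nat.div_div_eq_div_mul]
          exact h3
      · refine ⟨0, ?_, ?_⟩
        · simp only [Fin.val_zero, pow_zero, Nat.div_one]; omega
        · simp only [Fin.val_zero, pow_zero, Nat.div_one]; omega
    · rintro ⟨l, -, h2⟩
      by_contra hcon
      have := Nat.div_le_div_right (c := 2 ^ (l : ℕ)) (not_lt.mp hcon)
      omega

theorem cov_lt {t : ℕ} (u w : V → ℕ) (hw : ∀ b, w b < 2 ^ t) : Cov t fun a b => u a < w b := by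
  refine ⟨fun l a => if u a / 2 ^ (l : ℕ) % 2 = 0 then some (u a / 2 ^ (l : ℕ) + 1) else none,
    fun l b => some (w b / 2 ^ (l : ℕ)), fun a b => ?_⟩
  refine (lvl t _ _ (hw b)).trans ?_
  refine exists_congr fun l => ?_
  show _ ↔ (if u a / 2 ^ (l : ℕ) % 2 = 0 then some (u a / 2 ^ (l : ℕ) + 1) else none) =
    some (w b / 2 ^ (l : ℕ))
  by_cases h : u a / 2 ^ (l : ℕ) % 2 = 0
  · rw [if_pos h, Option.some_inj]
    exact ⟨fun h' => h'.2.symm, fun h' => ⟨h, h'.symm⟩⟩
  · rw [if_neg h]
    exact ⟨fun h' => absurd h'.1 h, fun h' => absurd h' (by simp)⟩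

theorem cov_gt {t : ℕ} (u w : V → ℕ) (hu : ∀ a, u a < 2 ^ t) : Cov t fun a b => w b < u a := by
  obtain ⟨α, β, h⟩ := cov_lt (t := t) w u hu
  exact ⟨β, α, fun a b => (h b a).trans (exists_congr fun _ => eq_comm)⟩

variable [Fintype V]

/-- the number of steps of a binary search -/
def tt (V : Type) [Fintype V] : ℕ := Nat.clog 2 (Fintype.card V + 2)

theorem tt_pos : 1 ≤ tt V := by
  unfold tt
  exact Nat.clog_pos one_lt_two (by omega)

theorem tt_lt : Fintype.card V + 1 < 2 ^ tt V := by
  have := Nat.le_pow_clog one_lt_two (Fintype.card V + 2)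
  unfold tt
  omega

open Classical in
theorem cmp (α β : V → ℝ) : Cov (tt V) (fun a b => α a ≤ β b) ∧
    Cov (tt V) (fun a b => ¬ α a ≤ β b) := by
  set u : V → ℕ := fun a => (univ.filter fun v => β v < α a).card with hu
  set w : V → ℕ := fun b => (univ.filter fun v => β v < β b).card with hw
  have key : ∀ a b, α a ≤ β b ↔ u a < w b + 1 := by
    intro a b
    rw [Nat.lt_succ_iff]
    constructor
    · intro h
      apply card_le_card
      intro v hv
      rw [mem_filter] at hv ⊢
      exact ⟨hv.1, lt_of_lt_of_le hv.2 h⟩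
    · intro h
      by_contra hcon
      push Not at hcon
      have : (univ.filter fun v => β v < β b) ⊂ univ.filter fun v => β v < α a := by
        rw [Finset.ssubset_iff_of_subset]
        · exact ⟨b, mem_filter.mpr ⟨mem_univ _, hcon⟩, fun h => lt_irrefl _ (mem_filter.mp h).2⟩
        · intro v hv
          rw [mem_filter] at hv ⊢
          exact ⟨hv.1, hv.2.trans hcon⟩
      have h3 := card_lt_card this
      exact absurd h (not_le.mpr h3)
  have hub : ∀ a, u a ≤ Fintype.card V := fun a => by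
    rw [← card_univ]; exact card_le_card (subset_univ _)
  have hwb : ∀ a, w a ≤ Fintype.card V := fun a => by
    rw [← card_univ]; exact card_le_card (subset_univ _)
  have ht := tt_lt (V := V)
  constructor
  · have h := cov_lt (t := tt V) u (fun b => w b + 1) (fun b => by have := hwb b; omega)
    obtain ⟨a', b', h⟩ := h
    exact ⟨a', b', fun a b => (key a b).trans (h a b)⟩
  · have h := cov_gt (t := tt V) u w (fun b => by have := hub b; omega)
    obtain ⟨a', b', h⟩ := h
    refine ⟨a', b', fun a b => ?_⟩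
    rw [← h a b]
    show ¬ α a ≤ β b ↔ w b < u a
    rw [key, not_lt, Nat.succ_le_iff]

/-- A decision tree whose questions are comparisons of real numbers which depend on two of the
vertices. -/
inductive Tree (r : ℕ) (V : Type) : Type
  | leaf (b : Bool) : Tree r V
  | node (i j : Fin r) (h : i ≠ j) (α β : V → ℝ) (yes no : Tree r V) : Tree r V

/-- the number of questions in the worst case -/
def Tree.depth : Tree r V → ℕ
  | .leaf _ => 0
  | .node _ _ _ _ _ y n => max y.depth n.depth + 1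

/-- the tree accepts the tuple -/
def Tree.Acc : Tree r V → (Fin r → V) → Prop
  | .leaf b, _ => b = true
  | .node i j _ α β y n, x => (α (x i) ≤ β (x j) ∧ y.Acc x) ∨ (¬ α (x i) ≤ β (x j) ∧ n.Acc x)

theorem tree_up (τ : Tree r V) : UP r V ((2 * tt V) ^ τ.depth) {x | τ.Acc x} := by
  have ht := tt_pos (V := V)
  induction τ with
  | leaf b =>
    rw [Tree.depth, pow_zero]
    cases b
    · exact ⟨Empty, inferInstance, fun e => e.elim, by simp, fun e => e.elim, fun x =>
        ⟨fun h => absurd h (by simp [Tree.Acc]), fun ⟨e, _⟩ => e.elim⟩⟩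
    · exact ⟨Unit, inferInstance, fun _ => Set.univ, by simp, fun _ => piece_univ r V, fun x =>
        ⟨fun _ => ⟨(), Set.mem_univ _⟩, fun _ => rfl⟩⟩
  | node i j h α β y n ihy ihn =>
    obtain ⟨c1, c2⟩ := cmp α β
    have h1 := up_union (up_inter ihy h c1) (up_inter ihn h c2)
    have h2 : {x | (Tree.node i j h α β y n).Acc x} =
        {x | x ∈ {x | y.Acc x} ∧ α (x i) ≤ β (x j)} ∪
        {x | x ∈ {x | n.Acc x} ∧ ¬ α (x i) ≤ β (x j)} := by
      ext x
      simp only [Tree.Acc, Set.mem_ofPred_eq, Set.mem_union]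
      tauto
    rw [h2]
    refine up_mono h1 ?_
    rw [Tree.depth]
    have h3 : (2 * tt V) ^ y.depth ≤ (2 * tt V) ^ max y.depth n.depth :=
      Nat.pow_le_pow_right (by omega) (le_max_left _ _)
    have h4 : (2 * tt V) ^ n.depth ≤ (2 * tt V) ^ max y.depth n.depth :=
      Nat.pow_le_pow_right (by omega) (le_max_right _ _)
    calc (2 * tt V) ^ y.depth * tt V + (2 * tt V) ^ n.depth * tt V
        ≤ (2 * tt V) ^ max y.depth n.depth * tt V + (2 * tt V) ^ max y.depth n.depth * tt V :=
          Nat.add_le_add (Nat.mul_le_mul_right _ h3) (Nat.mul_le_mul_right _ h4)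
      _ = (2 * tt V) ^ (max y.depth n.depth + 1) := by ring

end Pool.Agent.T9h45.PT
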