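import Pool.Agent.T9h45.PT.Up

set_option autoImplicit false
set_option linter.unusedSectionVars false

/-! # The edges with a given profile -/

namespace Pool.Agent.T9h45.PT

open Finset

variable {V : Type} [Fintype V] [DecidableEq V] {r : ℕ} {T : Type}

/-- the number of the tests which are used -/
def mm (r : ℕ) : ℕ := if r = 3 then 3 else 2 * (r - 2)

theorem card_lt_two (r : ℕ) (hr : 2 ≤ r) : ((univ : Finset (Fin r)).filter fun i => i.val < 2).card = 2 := by
  rw [card_filter, Fin.sum_univ_eq_sum_range (fun i => if i < 2 then 1 else 0) r, ← card_filter]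
  have : (range r).filter (fun i => i < 2) = range 2 := by
    ext i
    rw [mem_filter, mem_range, mem_range]
    omega
  rw [this, card_range]

theorem card_ge_two (r : ℕ) (hr : 2 ≤ r) :
    ((univ : Finset (Fin r)).filter fun i => 2 ≤ i.val).card = r - 2 := by
  have h := card_filter_add_card_filter_not (s := (univ : Finset (Fin r))) (fun i => i.val < 2)
  rw [card_lt_two r hr, card_univ, Fintype.card_fin] at h
  have h2 : ((univ : Finset (Fin r)).filter fun i => 2 ≤ i.val) =
      (univ.filter fun i => ¬ i.val < 2) := by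
    ext i
    rw [mem_filter, mem_filter, not_lt]
  rw [h2]
  omega

open Classical in
/-- the transversal tuples of the piece -/
noncomputable def tr (φ : Fin r → Fin r → V → T) (f : V → Fin r) : Finset (Fin r → V) :=
  univ.filter fun x => (∀ i j, i < j → φ i j (x i) = φ j i (x j)) ∧ ∀ i, f (x i) = i

theorem mem_tr {φ : Fin r → Fin r → V → T} {f : V → Fin r} {x : Fin r → V} :
    x ∈ tr φ f ↔ (∀ i j, i < j → φ i j (x i) = φ j i (x j)) ∧ ∀ i, f (x i) = i := by
  classical
  unfold tr
  rw [mem_filter]; exact and_iff_right (mem_univ _)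

theorem tr_sym {φ : Fin r → Fin r → V → T} {f : V → Fin r} {x : Fin r → V} (hx : x ∈ tr φ f)
    (i j : Fin r) (h : i ≠ j) : φ i j (x i) = φ j i (x j) := by
  rcases lt_or_gt_of_ne h with h | h
  · exact (mem_tr.mp hx).1 i j h
  · exact ((mem_tr.mp hx).1 j i h).symm

open Classical in
theorem fib4 (hr : 4 ≤ r) (φ : Fin r → Fin r → V → T) (f : V → Fin r) (k : ℕ)
    (hk : ∀ i j, i ≠ j → ∀ a b, ((tr φ f).filter fun x => x i = a ∧ x j = b).card ≤ k)
    (x0 : Fin r → V) (hx0 : x0 ∈ tr φ f) :
    ((tr φ f).filter fun x => ∀ q ∈ (univ.filter fun q : Fin r × Fin r => q.1.val < 2 ∧ 2 ≤ q.2.val),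
      φ q.1 q.2 (x q.1) = φ q.1 q.2 (x0 q.1)).card ≤ k * k := by
  set C := (tr φ f).filter fun x => ∀ q ∈
    (univ.filter fun q : Fin r × Fin r => q.1.val < 2 ∧ 2 ≤ q.2.val),
      φ q.1 q.2 (x q.1) = φ q.1 q.2 (x0 q.1) with hC
  let o : Fin r := ⟨0, by omega⟩
  let l : Fin r := ⟨1, by omega⟩
  let t2 : Fin r := ⟨2, by omega⟩
  let t3 : Fin r := ⟨3, by omega⟩
  have hswap : ∀ x ∈ C, (fun i : Fin r => if i.val < 2 then x i else x0 i) ∈
      (tr φ f).filter fun x => x t2 = x0 t2 ∧ x t3 = x0 t3 := by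
    intro x hx
    have hx' := mem_filter.mp hx
    rw [mem_filter]
    refine ⟨mem_tr.mpr ⟨?_, ?_⟩, ?_, ?_⟩
    · intro i j hij
      by_cases hi : i.val < 2
      · by_cases hj : j.val < 2
        · simp only [hi, hj, if_true]
          exact (mem_tr.mp hx'.1).1 i j hij
        · simp only [hi, hj, if_true, if_false]
          have h1 := hx'.2 (i, j) (mem_filter.mpr ⟨mem_univ _, hi, not_lt.mp hj⟩)
          simp only at h1
          rw [h1]
          exact (mem_tr.mp hx0).1 i j hij
      · have hj : ¬ j.val < 2 := by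
          have : i.val < j.val := hij
          omega
        simp only [hi, hj, if_false]
        exact (mem_tr.mp hx0).1 i j hij
    · intro i
      by_cases hi : i.val < 2
      · simp only [hi, if_true]
        exact (mem_tr.mp hx'.1).2 i
      · simp only [hi, if_false]
        exact (mem_tr.mp hx0).2 i
    · simp [t2]
    · simp [t3]
  have h1 : (C.image fun x => (x o, x l)).card ≤ k := by
    refine le_trans ?_ (hk t2 t3 (by simp [t2, t3]) (x0 t2) (x0 t3))
    have h2 : (C.image fun x => (x o, x l)) ⊆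
        ((tr φ f).filter fun x => x t2 = x0 t2 ∧ x t3 = x0 t3).image fun x => (x o, x l) := by
      intro p hp
      obtain ⟨x, hx, rfl⟩ := mem_image.mp hp
      rw [mem_image]
      exact ⟨_, hswap x hx, by simp [o, l]⟩
    exact (card_le_card h2).trans card_image_le
  have h2 : C.card ≤ k * (C.image fun x => (x o, x l)).card := by
    refine card_le_mul_card_image _ k ?_
    rintro ⟨a, b⟩ _
    refine le_trans (card_le_card ?_) (hk o l (by simp [o, l]) a b)
    intro x hx
    have hx' := mem_filter.mp hx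
    have h3 : x o = a ∧ x l = b := Prod.mk.inj hx'.2
    exact mem_filter.mpr ⟨(mem_filter.mp hx'.1).1, h3⟩
  exact h2.trans (Nat.mul_le_mul_left _ h1)

open Classical in
theorem fib3 (φ : Fin 3 → Fin 3 → V → T) (f : V → Fin 3) (k : ℕ)
    (hk : ∀ i j, i ≠ j → ∀ a b, ((tr φ f).filter fun x => x i = a ∧ x j = b).card ≤ k)
    (x0 : Fin 3 → V) (hx0 : x0 ∈ tr φ f) :
    ((tr φ f).filter fun x => ∀ q ∈ ({(0, 1), (0, 2), (1, 2)} : Finset (Fin 3 × Fin 3)),
      φ q.1 q.2 (x q.1) = φ q.1 q.2 (x0 q.1)).card ≤ k * (k * k) := by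
  set C := (tr φ f).filter fun x => ∀ q ∈ ({(0, 1), (0, 2), (1, 2)} : Finset (Fin 3 × Fin 3)),
      φ q.1 q.2 (x q.1) = φ q.1 q.2 (x0 q.1) with hC
  have hq : ∀ x ∈ C, φ 0 1 (x 0) = φ 0 1 (x0 0) ∧ φ 0 2 (x 0) = φ 0 2 (x0 0) ∧
      φ 1 2 (x 1) = φ 1 2 (x0 1) := by
    intro x hx
    have h := (mem_filter.mp hx).2
    exact ⟨h (0, 1) (by simp), h (0, 2) (by simp), h (1, 2) (by simp)⟩
  have h01 := tr_sym hx0 0 1 (by decide)
  have h02 := tr_sym hx0 0 2 (by decide)
  have h12 := tr_sym hx0 1 2 (by decide)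
  have hA : (C.image fun x => x 0).card ≤ k := by
    refine le_trans ?_ (hk 1 2 (by decide) (x0 1) (x0 2))
    have h2 : (C.image fun x => x 0) ⊆
        ((tr φ f).filter fun x => x 1 = x0 1 ∧ x 2 = x0 2).image fun x => x 0 := by
      intro p hp
      obtain ⟨x, hx, rfl⟩ := mem_image.mp hp
      obtain ⟨e1, e2, e3⟩ := hq x hx
      rw [mem_image]
      refine ⟨![x 0, x0 1, x0 2], mem_filter.mpr ⟨mem_tr.mpr ⟨?_, ?_⟩, rfl, rfl⟩, rfl⟩
      · intro i j hij
        fin_cases i <;> fin_cases j <;> first | (exact absurd hij (by decide)) | skip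
        · exact e1.trans h01
        · exact e2.trans h02
        · exact h12
      · intro i
        fin_cases i
        · exact (mem_tr.mp (mem_filter.mp hx).1).2 0
        · exact (mem_tr.mp hx0).2 1
        · exact (mem_tr.mp hx0).2 2
    exact (card_le_card h2).trans card_image_le
  have hB : (C.image fun x => x 1).card ≤ k := by
    refine le_trans ?_ (hk 0 2 (by decide) (x0 0) (x0 2))
    have h2 : (C.image fun x => x 1) ⊆
        ((tr φ f).filter fun x => x 0 = x0 0 ∧ x 2 = x0 2).image fun x => x 1 := by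
      intro p hp
      obtain ⟨x, hx, rfl⟩ := mem_image.mp hp
      obtain ⟨e1, e2, e3⟩ := hq x hx
      have hx1 := tr_sym (mem_filter.mp hx).1 0 1 (by decide)
      rw [mem_image]
      refine ⟨![x0 0, x 1, x0 2], mem_filter.mpr ⟨mem_tr.mpr ⟨?_, ?_⟩, rfl, rfl⟩, rfl⟩
      · intro i j hij
        fin_cases i <;> fin_cases j <;> first | (exact absurd hij (by decide)) | skip
        · exact e1.symm.trans hx1
        · exact h02
        · exact e3.trans h12
      · intro i
        fin_cases i
        · exact (mem_tr.mp hx0).2 0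
        · exact (mem_tr.mp (mem_filter.mp hx).1).2 1
        · exact (mem_tr.mp hx0).2 2
    exact (card_le_card h2).trans card_image_le
  have h1 : (C.image fun x => (x 0, x 1)).card ≤ k * k := by
    have h2 : (C.image fun x => (x 0, x 1)) ⊆ (C.image fun x => x 0) ×ˢ (C.image fun x => x 1) := by
      intro p hp
      obtain ⟨x, hx, rfl⟩ := mem_image.mp hp
      exact mem_product.mpr ⟨mem_image_of_mem _ hx, mem_image_of_mem _ hx⟩
    refine (card_le_card h2).trans ?_
    rw [card_product]
    exact Nat.mul_le_mul hA hB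
  have h2 : C.card ≤ k * (C.image fun x => (x 0, x 1)).card := by
    refine card_le_mul_card_image _ k ?_
    rintro ⟨a, b⟩ _
    refine le_trans (card_le_card ?_) (hk 0 1 (by decide) a b)
    intro x hx
    have hx' := mem_filter.mp hx
    have h3 : x 0 = a ∧ x 1 = b := Prod.mk.inj hx'.2
    exact mem_filter.mpr ⟨(mem_filter.mp hx'.1).1, h3⟩
  exact h2.trans (Nat.mul_le_mul_left _ h1)

open Classical in
/-- **The bound for one piece.** -/
theorem one (hr : 3 ≤ r) (φ : Fin r → Fin r → V → T) (f : V → Fin r) (k : ℕ) (hk0 : 1 ≤ k)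
    (hk' : ∀ i j, i ≠ j → ∀ a b, ((tr φ f).filter fun x => x i = a ∧ x j = b).card ≤ k) :
    (tr φ f).card ^ (mm r + 1) ≤
      2 * k ^ 3 * (2 * mm r * k * Fintype.card V ^ 2) ^ mm r := by
  by_cases h3 : r = 3
  · subst h3
    have hmm : mm 3 = 3 := by rw [mm, if_pos rfl]
    have h := popular (tr φ f) φ (fun x hx => tr_sym hx) k (k * (k * k)) hk'
      {(0, 1), (0, 2), (1, 2)} (by
        intro q hq
        simp only [mem_insert, mem_singleton] at hq
        rcases hq with rfl | rfl | rfl <;> decide)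
      (fun x0 hx0 => fib3 φ f k hk' x0 hx0) (by decide)
    have hc : ({(0, 1), (0, 2), (1, 2)} : Finset (Fin 3 × Fin 3)).card = 3 := by decide
    rw [hc] at h
    rw [hmm]
    calc _ ≤ _ := h
      _ = _ := by ring
  · have hmm : mm r = 2 * (r - 2) := by rw [mm, if_neg h3]
    have hc : (univ.filter fun q : Fin r × Fin r => q.1.val < 2 ∧ 2 ≤ q.2.val).card = mm r := by
      have : (univ.filter fun q : Fin r × Fin r => q.1.val < 2 ∧ 2 ≤ q.2.val) =
          (univ.filter fun i : Fin r => i.val < 2) ×ˢ (univ.filter fun i : Fin r => 2 ≤ i.val) := by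
        ext q
        simp
      rw [this, card_product, card_lt_two r (by omega), card_ge_two r (by omega), hmm]
    have h := popular (tr φ f) φ (fun x hx => tr_sym hx) k (k * k) hk'
      (univ.filter fun q : Fin r × Fin r => q.1.val < 2 ∧ 2 ≤ q.2.val) (by
        intro q hq h
        have := (mem_filter.mp hq).2
        rw [h] at this
        omega)
      (fun x0 hx0 => fib4 (by omega) φ f k hk' x0 hx0) (by rw [hc, hmm]; omega)
    rw [hc] at h
    refine h.trans (Nat.mul_le_mul_right _ (Nat.mul_le_mul_left _ ?_))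
    calc k * k = k ^ 2 := by ring
      _ ≤ k ^ 3 := Nat.pow_le_pow_right hk0 (by omega)

end Pool.Agent.T9h45.PT
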