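import Pool.Agent.T9h45.PT.Fib

set_option autoImplicit false
set_option linter.unusedSectionVars false

/-! # Unions of pieces -/

namespace Pool.Agent.T9h45.PT

open Finset

variable {V : Type} [Fintype V] [DecidableEq V] {r : ℕ}

open Classical in
theorem maps (X : Fin r → V) (hX : Function.Injective X) :
    Fintype.card (V → Fin r) ≤ r ^ r * (univ.filter fun f : V → Fin r => ∀ i, f (X i) = i).card := by
  let md : (V → Fin r) → V → Fin r := fun f v => if h : ∃ i, X i = v then h.choose else f v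
  have hmd : ∀ f i, md f (X i) = i := by
    intro f i
    have h : ∃ j, X j = X i := ⟨i, rfl⟩
    have h2 : md f (X i) = h.choose := dif_pos h
    rw [h2]
    exact hX h.choose_spec
  have h1 : r ^ r = (univ : Finset (Fin r → Fin r)).card := by
    rw [card_univ, Fintype.card_fun, Fintype.card_fin]
  rw [h1, ← card_product, ← card_univ]
  refine card_le_card_of_injOn (fun f => (fun i => f (X i), md f)) ?_ ?_
  · intro f _
    rw [mem_coe, mem_product]
    exact ⟨mem_univ _, mem_filter.mpr ⟨mem_univ _, hmd f⟩⟩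
  · intro f _ g _ hfg
    simp only [Prod.mk.injEq] at hfg
    obtain ⟨h2, h3⟩ := hfg
    funext v
    by_cases hv : ∃ i, X i = v
    · obtain ⟨i, rfl⟩ := hv
      exact congrFun h2 i
    · have h4 := congrFun h3 v
      have h5 : md f v = f v := dif_neg hv
      have h6 : md g v = g v := dif_neg hv
      rw [h5, h6] at h4
      exact h4

open Classical in
theorem avg (hr : 1 ≤ r) (H : Finset (Finset V)) (X : Finset V → Fin r → V)
    (hX : ∀ s ∈ H, Function.Injective (X s)) :
    ∃ f : V → Fin r, H.card ≤ r ^ r * (H.filter fun s => ∀ i, f (X s i) = i).card := by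
  by_contra hcon
  push Not at hcon
  have : NeZero r := ⟨by omega⟩
  have h1 : ∑ f : V → Fin r, r ^ r * (H.filter fun s => ∀ i, f (X s i) = i).card <
      ∑ _f : V → Fin r, H.card :=
    sum_lt_sum_of_nonempty univ_nonempty fun f _ => hcon f
  have h2 : ∑ f : V → Fin r, r ^ r * (H.filter fun s => ∀ i, f (X s i) = i).card =
      ∑ s ∈ H, r ^ r * (univ.filter fun f : V → Fin r => ∀ i, f (X s i) = i).card := by
    rw [← mul_sum, ← mul_sum]
    congr 1
    simp_rw [card_filter]
    exact sum_comm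
  rw [h2, sum_const, card_univ, smul_eq_mul] at h1
  have h3 : ∑ _s ∈ H, Fintype.card (V → Fin r) ≤
      ∑ s ∈ H, r ^ r * (univ.filter fun f : V → Fin r => ∀ i, f (X s i) = i).card :=
    sum_le_sum fun s hs => maps (X s) (hX s hs)
  rw [sum_const, smul_eq_mul, mul_comm] at h3
  omega

/-- `S` is a union of at most `L` pieces. -/
def UP (r : ℕ) (V : Type) (L : ℕ) (S : Set (Fin r → V)) : Prop :=
  ∃ (ι : Type) (_ : Fintype ι) (P : ι → Set (Fin r → V)), Fintype.card ι ≤ L ∧
    (∀ l, IsPiece r V (P l)) ∧ ∀ x, x ∈ S ↔ ∃ l, x ∈ P l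

/-- `S` decides the hypergraph `H`; tuples with repeated vertices are ignored. -/
def Decides (S : Set (Fin r → V)) (H : Finset (Finset V)) : Prop :=
  (∀ x ∈ S, Function.Injective x → univ.image x ∈ H) ∧
    ∀ s ∈ H, ∃ x ∈ S, Function.Injective x ∧ univ.image x = s

theorem tr_inj {T : Type} {φ : Fin r → Fin r → V → T} {f : V → Fin r} {x : Fin r → V}
    (hx : x ∈ tr φ f) : Function.Injective x := by
  intro i j hij
  have h1 := (mem_tr.mp hx).2 i
  have h2 := (mem_tr.mp hx).2 j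
  rw [hij, h2] at h1
  exact h1.symm

theorem tr_image {T : Type} {φ : Fin r → Fin r → V → T} {f : V → Fin r} {x y : Fin r → V}
    (hx : x ∈ tr φ f) (hy : y ∈ tr φ f) (h : univ.image x = univ.image y) : x = y := by
  funext i
  have h1 : x i ∈ univ.image y := by rw [← h]; exact mem_image_of_mem _ (mem_univ _)
  obtain ⟨j, -, hj⟩ := mem_image.mp h1
  have h2 := (mem_tr.mp hx).2 i
  have h3 := (mem_tr.mp hy).2 j
  rw [hj, h2] at h3
  rw [← hj, h3]

/-- the constant -/
noncomputable def CC (r k : ℕ) : ℝ :=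
  (2 * (k : ℝ) ^ 3 * (2 * mm r * k) ^ mm r) ^ (1 / ((mm r : ℝ) + 1))

theorem root {m n E : ℕ} {A : ℝ} (hA : 0 ≤ A) (h : (E : ℝ) ^ (m + 1) ≤ A * (n : ℝ) ^ (2 * m)) :
    (E : ℝ) ≤ A ^ (1 / ((m : ℝ) + 1)) * (n : ℝ) ^ (2 - 2 / ((m : ℝ) + 1)) := by
  have hm : (0 : ℝ) < (m : ℝ) + 1 := by positivity
  have h1 : (E : ℝ) = ((E : ℝ) ^ (m + 1)) ^ (1 / ((m : ℝ) + 1)) := by
    rw [← Real.rpow_natCast, ← Real.rpow_mul (Nat.cast_nonneg _)]
    push_cast
    rw [mul_one_div_cancel hm.ne', Real.rpow_one]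
  have h2 : (n : ℝ) ^ (2 - 2 / ((m : ℝ) + 1)) = ((n : ℝ) ^ (2 * m)) ^ (1 / ((m : ℝ) + 1)) := by
    rw [← Real.rpow_natCast, ← Real.rpow_mul (Nat.cast_nonneg _)]
    congr 1
    push_cast
    field_simp
    ring
  rw [h1, h2, ← Real.mul_rpow hA (by positivity)]
  exact Real.rpow_le_rpow (by positivity) h (by positivity)

open Classical in
/-- **The upper bound.** -/
theorem upper (hr : 3 ≤ r) (k L : ℕ) (hk0 : 1 ≤ k) (H : Finset (Finset V))
    (S : Set (Fin r → V)) (hS : UP r V L S) (hH : Decides S H)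
    (hk : ∀ a b, a ≠ b → (H.filter fun s => a ∈ s ∧ b ∈ s).card ≤ k) :
    (H.card : ℝ) ≤ (r : ℝ) ^ r * CC r k * L * (Fintype.card V : ℝ) ^ (2 - 2 / ((mm r : ℝ) + 1)) := by
  obtain ⟨ι, _, P, hL, hP, hSP⟩ := hS
  have h1 : ∀ l, ∀ x ∈ P l, Function.Injective x → univ.image x ∈ H := fun l x hx hi =>
    hH.1 x ((hSP x).mpr ⟨l, hx⟩) hi
  have h2 : ∀ s ∈ H, ∃ l, ∃ x ∈ P l, Function.Injective x ∧ univ.image x = s := by
    intro s hs
    obtain ⟨x, hx, h3⟩ := hH.2 s hs
    obtain ⟨l, hl⟩ := (hSP x).mp hx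
    exact ⟨l, x, hl, h3⟩
  choose T φ hφ using hP
  have hCC : 0 ≤ CC r k := by unfold CC; positivity
  rcases isEmpty_or_nonempty V with hV | hV
  · have : H = ∅ := by
      rw [eq_empty_iff_forall_notMem]
      intro s hs
      obtain ⟨l, x, -⟩ := h2 s hs
      exact hV.elim (x ⟨0, by omega⟩)
    rw [this, card_empty, Nat.cast_zero]
    positivity
  have hX : ∀ s : Finset V, ∃ x : Fin r → V, s ∈ H → Function.Injective x ∧ univ.image x = s ∧
      ∃ l, x ∈ P l := by
    intro s
    by_cases hs : s ∈ H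
    · obtain ⟨l, x, hx, hxi, hxs⟩ := h2 s hs
      exact ⟨x, fun _ => ⟨hxi, hxs, l, hx⟩⟩
    · exact ⟨fun _ => Classical.arbitrary V, fun h => absurd h hs⟩
  choose X hX using hX
  obtain ⟨f, hf⟩ := avg (r := r) (by omega) H X (fun s hs => (hX s hs).1)
  -- the edges which are transversal
  have h3 : (H.filter fun s => ∀ i, f (X s i) = i) ⊆
      (univ : Finset ι).biUnion fun l => (tr (φ l) f).image fun x => univ.image x := by
    intro s hs
    have hs' := mem_filter.mp hs
    obtain ⟨-, h5, l, hl⟩ := hX s hs'.1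
    rw [mem_biUnion]
    exact ⟨l, mem_univ _, mem_image.mpr ⟨X s, mem_tr.mpr ⟨(hφ l _).mp hl, hs'.2⟩, h5⟩⟩
  have h4 : (H.filter fun s => ∀ i, f (X s i) = i).card ≤ ∑ l : ι, (tr (φ l) f).card :=
    (card_le_card h3).trans (card_biUnion_le.trans (sum_le_sum fun l _ => card_image_le))
  have h5 : ∀ l, ((tr (φ l) f).card : ℝ) ≤
      CC r k * (Fintype.card V : ℝ) ^ (2 - 2 / ((mm r : ℝ) + 1)) := by
    intro l
    have h6 := one hr (φ l) f k hk0 (by
      intro i j hij a b
      by_cases hab : a = b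
      · have : ((tr (φ l) f).filter fun x => x i = a ∧ x j = b) = ∅ := by
          rw [eq_empty_iff_forall_notMem]
          intro x hx
          have hx' := mem_filter.mp hx
          exact hij (tr_inj hx'.1 (by rw [hx'.2.1, hx'.2.2, hab]))
        rw [this, card_empty]
        exact Nat.zero_le _
      · refine le_trans ?_ (hk a b hab)
        refine card_le_card_of_injOn (fun x => univ.image x) ?_ ?_
        · intro x hx
          have hx' := mem_filter.mp (mem_coe.mp hx)
          rw [mem_coe, mem_filter]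
          refine ⟨h1 l x ((hφ l x).mpr (mem_tr.mp hx'.1).1) (tr_inj hx'.1), ?_, ?_⟩
          · rw [← hx'.2.1]; exact mem_image_of_mem _ (mem_univ _)
          · rw [← hx'.2.2]; exact mem_image_of_mem _ (mem_univ _)
        · intro x hx y hy hxy
          exact tr_image (mem_filter.mp (mem_coe.mp hx)).1 (mem_filter.mp (mem_coe.mp hy)).1 hxy)
    unfold CC
    apply root (by positivity)
    have h7 : (((tr (φ l) f).card ^ (mm r + 1) : ℕ) : ℝ) ≤
        ((2 * k ^ 3 * (2 * mm r * k * Fintype.card V ^ 2) ^ mm r : ℕ) : ℝ) := by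
      exact_mod_cast h6
    push_cast at h7
    calc _ ≤ _ := h7
      _ = _ := by rw [mul_pow (2 * (mm r : ℝ) * k), ← pow_mul]; ring
  have h6 : (H.card : ℝ) ≤ (r : ℝ) ^ r * ∑ l : ι, ((tr (φ l) f).card : ℝ) := by
    have : H.card ≤ r ^ r * ∑ l : ι, (tr (φ l) f).card :=
      hf.trans (Nat.mul_le_mul_left _ h4)
    exact_mod_cast this
  calc (H.card : ℝ) ≤ (r : ℝ) ^ r * ∑ l : ι, ((tr (φ l) f).card : ℝ) := h6
    _ ≤ (r : ℝ) ^ r * ∑ _l : ι, CC r k * (Fintype.card V : ℝ) ^ (2 - 2 / ((mm r : ℝ) + 1)) := by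
        apply mul_le_mul_of_nonneg_left (sum_le_sum fun l _ => h5 l) (by positivity)
    _ = (Fintype.card ι : ℝ) * ((r : ℝ) ^ r * (CC r k *
          (Fintype.card V : ℝ) ^ (2 - 2 / ((mm r : ℝ) + 1)))) := by
        rw [sum_const, card_univ, nsmul_eq_mul]; ring
    _ ≤ (L : ℝ) * ((r : ℝ) ^ r * (CC r k *
          (Fintype.card V : ℝ) ^ (2 - 2 / ((mm r : ℝ) + 1)))) := by
        apply mul_le_mul_of_nonneg_right (by exact_mod_cast hL) (by positivity)
    _ = _ := by ring

/-- the number of edges through two vertices -/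
theorem codeg (e : ℕ) (H : Finset (Finset V)) (hu : ∀ s ∈ H, s.card = r)
    (hS : ∀ S ⊆ H, S.card = e → (r - 2) * e + 3 < (S.biUnion id).card) (a b : V) (hab : a ≠ b) :
    (H.filter fun s => a ∈ s ∧ b ∈ s).card ≤ e := by
  by_contra hcon
  push Not at hcon
  obtain ⟨S, hS1, hS2⟩ := exists_subset_card_eq hcon.le
  have h1 := hS S (hS1.trans (filter_subset _ _)) hS2
  have h2 : S.biUnion id ⊆ {a, b} ∪ S.biUnion fun s => s \ {a, b} := by
    intro v hv
    obtain ⟨s, hs, hvs⟩ := mem_biUnion.mp hv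
    by_cases h : v ∈ ({a, b} : Finset V)
    · exact mem_union_left _ h
    · exact mem_union_right _ (mem_biUnion.mpr ⟨s, hs, mem_sdiff.mpr ⟨hvs, h⟩⟩)
  have h3 : (S.biUnion fun s => s \ {a, b}).card ≤ e * (r - 2) := by
    refine card_biUnion_le.trans ?_
    rw [← hS2, ← smul_eq_mul, ← sum_const]
    refine sum_le_sum fun s hs => ?_
    have hs' := mem_filter.mp (hS1 hs)
    rw [card_sdiff_of_subset, hu s hs'.1, card_pair hab]
    intro v hv
    rw [mem_insert, mem_singleton] at hv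
    rcases hv with rfl | rfl
    · exact hs'.2.1
    · exact hs'.2.2
  have h4 := (card_le_card h2).trans (card_union_le _ _)
  rw [card_pair hab] at h4
  have h5 : e * (r - 2) = (r - 2) * e := mul_comm _ _
  omega

end Pool.Agent.T9h45.PT
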