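import Mathlib

set_option autoImplicit false
set_option linter.unusedSectionVars false

/-! # Relations given by equality tests of pairs: the upper bound for one piece -/

namespace Pool.Agent.T9h45.PT

open Finset

/-- The set of the `r`-tuples which pass an equality test for each pair of positions. -/
def IsPiece (r : ℕ) (V : Type) (P : Set (Fin r → V)) : Prop :=
  ∃ (T : Type) (φ : Fin r → Fin r → V → T), ∀ x, x ∈ P ↔ ∀ i j, i < j → φ i j (x i) = φ j i (x j)

variable {V : Type} [Fintype V] [DecidableEq V] {r : ℕ} {T : Type}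

open Classical in
/-- Popular values. -/
theorem popular (E : Finset (Fin r → V)) (φ : Fin r → Fin r → V → T)
    (hE : ∀ x ∈ E, ∀ i j, i ≠ j → φ i j (x i) = φ j i (x j)) (k K : ℕ)
    (hk : ∀ i j, i ≠ j → ∀ a b, (E.filter fun x => x i = a ∧ x j = b).card ≤ k)
    (Q : Finset (Fin r × Fin r)) (hQ : ∀ q ∈ Q, q.1 ≠ q.2)
    (hK : ∀ x0 ∈ E, (E.filter fun x => ∀ q ∈ Q, φ q.1 q.2 (x q.1) = φ q.1 q.2 (x0 q.1)).card ≤ K)
    (hQ0 : 0 < Q.card) :
    E.card ^ (Q.card + 1) ≤ 2 * K * (2 * Q.card * k * Fintype.card V ^ 2) ^ Q.card := by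
  set n := Fintype.card V with hn
  rcases Nat.eq_zero_or_pos E.card with hE0 | hE0
  · rw [hE0, zero_pow (by omega)]; exact Nat.zero_le _
  set m := Q.card with hm
  obtain ⟨y0, hy0⟩ := card_pos.mp hE0
  obtain ⟨q0, hq0⟩ := card_pos.mp hQ0
  have hn0 : 0 < n := by
    rw [hn]; exact Fintype.card_pos_iff.mpr ⟨y0 q0.1⟩
  -- the class of a vertex for the test `q`
  let cl : Fin r × Fin r → V → Finset V := fun q a => univ.filter fun b => φ q.1 q.2 b = φ q.1 q.2 a
  let pop : Fin r × Fin r → V → Prop := fun q a => E.card ≤ (cl q a).card * (2 * m * k * n)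
  -- few edges with an unpopular value
  have h1 : ∀ q ∈ Q, 2 * m * (E.filter fun x => ¬ pop q (x q.1)).card ≤ E.card := by
    intro q hq
    have hne := hQ q hq
    -- count by the second vertex
    have h2 : (E.filter fun x => ¬ pop q (x q.1)).card ≤
        ∑ b : V, k * ((univ.filter fun a => φ q.1 q.2 a = φ q.2 q.1 b ∧ ¬ pop q a).card) := by
      have h3 : E.filter (fun x => ¬ pop q (x q.1)) ⊆
          (univ : Finset V).biUnion fun b =>
            (univ.filter fun a => φ q.1 q.2 a = φ q.2 q.1 b ∧ ¬ pop q a).biUnion fun a =>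
              E.filter fun x => x q.1 = a ∧ x q.2 = b := by
        intro x hx
        rw [mem_filter] at hx
        rw [mem_biUnion]
        refine ⟨x q.2, mem_univ _, ?_⟩
        rw [mem_biUnion]
        refine ⟨x q.1, ?_, mem_filter.mpr ⟨hx.1, rfl, rfl⟩⟩
        rw [mem_filter]
        exact ⟨mem_univ _, hE x hx.1 _ _ hne, hx.2⟩
      refine (card_le_card h3).trans (card_biUnion_le.trans (sum_le_sum fun b _ => ?_))
      refine card_biUnion_le.trans ?_
      calc _ ≤ ∑ a ∈ univ.filter (fun a => φ q.1 q.2 a = φ q.2 q.1 b ∧ ¬ pop q a), k :=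
            sum_le_sum fun a _ => hk _ _ hne a b
        _ = _ := by rw [sum_const, smul_eq_mul, mul_comm]
    have h4 : ∀ b : V, (univ.filter fun a => φ q.1 q.2 a = φ q.2 q.1 b ∧ ¬ pop q a).card *
        (2 * m * k * n) ≤ E.card := by
      intro b
      rcases Finset.eq_empty_or_nonempty
        (univ.filter fun a => φ q.1 q.2 a = φ q.2 q.1 b ∧ ¬ pop q a) with h5 | ⟨a, ha⟩
      · rw [h5, card_empty, zero_mul]; exact Nat.zero_le _
      · have ha' := (mem_filter.mp ha).2
        have h6 : (univ.filter fun a => φ q.1 q.2 a = φ q.2 q.1 b ∧ ¬ pop q a) ⊆ cl q a := by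
          intro c hc
          have hc' := (mem_filter.mp hc).2
          exact mem_filter.mpr ⟨mem_univ _, hc'.1.trans ha'.1.symm⟩
        have h7 : (cl q a).card * (2 * m * k * n) < E.card := not_le.mp ha'.2
        exact (Nat.mul_le_mul_right _ (card_le_card h6)).trans h7.le
    have h5 : 2 * m * (E.filter fun x => ¬ pop q (x q.1)).card * n ≤ E.card * n := by
      calc 2 * m * (E.filter fun x => ¬ pop q (x q.1)).card * n
          ≤ 2 * m * (∑ b : V, k * ((univ.filter fun a =>
              φ q.1 q.2 a = φ q.2 q.1 b ∧ ¬ pop q a).card)) * n :=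
            Nat.mul_le_mul_right _ (Nat.mul_le_mul_left _ h2)
        _ = ∑ b : V, (univ.filter fun a => φ q.1 q.2 a = φ q.2 q.1 b ∧ ¬ pop q a).card *
              (2 * m * k * n) := by
            rw [mul_sum, sum_mul]
            exact sum_congr rfl fun b _ => by ring
        _ ≤ ∑ _b : V, E.card := sum_le_sum fun b _ => h4 b
        _ = E.card * n := by rw [sum_const, card_univ, smul_eq_mul, mul_comm]
    exact Nat.le_of_mul_le_mul_right h5 hn0
  -- half of the edges have popular values only
  set E' := E.filter fun x => ∀ q ∈ Q, pop q (x q.1) with hE'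
  have h2 : E.card ≤ 2 * E'.card := by
    have h3 : E ⊆ E' ∪ Q.biUnion fun q => E.filter fun x => ¬ pop q (x q.1) := by
      intro x hx
      by_cases h : ∀ q ∈ Q, pop q (x q.1)
      · exact mem_union_left _ (mem_filter.mpr ⟨hx, h⟩)
      · push Not at h
        obtain ⟨q, hq, h⟩ := h
        exact mem_union_right _ (mem_biUnion.mpr ⟨q, hq, mem_filter.mpr ⟨hx, h⟩⟩)
    have h4 : 2 * m * (Q.biUnion fun q => E.filter fun x => ¬ pop q (x q.1)).card ≤ m * E.card := by
      calc _ ≤ 2 * m * ∑ q ∈ Q, (E.filter fun x => ¬ pop q (x q.1)).card :=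
            Nat.mul_le_mul_left _ card_biUnion_le
        _ = ∑ q ∈ Q, 2 * m * (E.filter fun x => ¬ pop q (x q.1)).card := by rw [mul_sum]
        _ ≤ ∑ _q ∈ Q, E.card := sum_le_sum h1
        _ = m * E.card := by rw [sum_const, smul_eq_mul]
    have h5 : 2 * (Q.biUnion fun q => E.filter fun x => ¬ pop q (x q.1)).card ≤ E.card := by
      have : m * (2 * (Q.biUnion fun q => E.filter fun x => ¬ pop q (x q.1)).card) ≤
          m * E.card := by
        calc _ = 2 * m * (Q.biUnion fun q => E.filter fun x => ¬ pop q (x q.1)).card := by ring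
          _ ≤ _ := h4
      exact Nat.le_of_mul_le_mul_left this hQ0
    have h6 := (card_le_card h3).trans (card_union_le _ _)
    omega
  -- popular values are few
  let W : Fin r × Fin r → Finset T := fun q => (univ.filter fun a => pop q a).image (φ q.1 q.2)
  have h3 : ∀ q ∈ Q, (W q).card * E.card ≤ 2 * m * k * n ^ 2 := by
    intro q _
    have h4 : ∑ p ∈ W q, (univ.filter fun a => φ q.1 q.2 a = p).card ≤ n := by
      rw [hn, ← card_univ, ← card_biUnion]
      · exact card_le_card (subset_univ _)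
      · intro p _ p' _ hpp'
        rw [Function.onFun, disjoint_left]
        intro a ha ha'
        exact hpp' ((mem_filter.mp ha).2.symm.trans (mem_filter.mp ha').2)
    calc (W q).card * E.card = ∑ _p ∈ W q, E.card := by rw [sum_const, smul_eq_mul]
      _ ≤ ∑ p ∈ W q, (univ.filter fun a => φ q.1 q.2 a = p).card * (2 * m * k * n) := by
          refine sum_le_sum fun p hp => ?_
          obtain ⟨a, ha, rfl⟩ := mem_image.mp hp
          exact (mem_filter.mp ha).2
      _ = (∑ p ∈ W q, (univ.filter fun a => φ q.1 q.2 a = p).card) * (2 * m * k * n) := by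
          rw [sum_mul]
      _ ≤ n * (2 * m * k * n) := Nat.mul_le_mul_right _ h4
      _ = 2 * m * k * n ^ 2 := by ring
  -- the profiles
  have h4 : E'.card ≤ (∏ q : Q, (W q.1).card) * K := by
    have h5 : (Fintype.piFinset fun q : Q => W q.1).card = ∏ q : Q, (W q.1).card :=
      Fintype.card_piFinset _
    rw [← h5, mul_comm]
    refine card_le_mul_card_image_of_maps_to
      (f := fun x (q : Q) => φ q.1.1 q.1.2 (x q.1.1)) ?_ K ?_
    · intro x hx
      rw [Fintype.mem_piFinset]
      intro q
      exact mem_image.mpr ⟨_, mem_filter.mpr ⟨mem_univ _, (mem_filter.mp hx).2 q.1 q.2⟩, rfl⟩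
    · intro p _
      rcases Finset.eq_empty_or_nonempty
        (E'.filter fun x => (fun (q : Q) => φ q.1.1 q.1.2 (x q.1.1)) = p) with h6 | ⟨x0, hx0⟩
      · rw [h6, card_empty]; exact Nat.zero_le _
      · have hx0' := mem_filter.mp hx0
        refine le_trans (card_le_card ?_) (hK x0 (mem_filter.mp hx0'.1).1)
        intro x hx
        have hx' := mem_filter.mp hx
        refine mem_filter.mpr ⟨(mem_filter.mp hx'.1).1, fun q hq => ?_⟩
        have e1 := congrFun hx'.2 ⟨q, hq⟩
        have e2 := congrFun hx0'.2 ⟨q, hq⟩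
        exact e1.trans e2.symm
  calc E.card ^ (m + 1) = E.card * E.card ^ m := by ring
    _ ≤ (2 * ((∏ q : Q, (W q.1).card) * K)) * E.card ^ m :=
        Nat.mul_le_mul_right _ (h2.trans (Nat.mul_le_mul_left _ h4))
    _ = 2 * K * ∏ q : Q, ((W q.1).card * E.card) := by
        rw [prod_mul_distrib, prod_const, card_univ, Fintype.card_coe]; ring
    _ ≤ 2 * K * ∏ _q : Q, (2 * m * k * n ^ 2) :=
        Nat.mul_le_mul_left _ (prod_le_prod' fun q _ => h3 q.1 q.2)
    _ = 2 * K * (2 * m * k * n ^ 2) ^ m := by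
        rw [prod_const, card_univ, Fintype.card_coe]

end Pool.Agent.T9h45.PT
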